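import Mathlib
import Pool.Agent.helper96.Airy.Order

/-!
# The stochastic Airy function has order `3/2` in the spectral parameter

Idea. With `m(t) = ∫_t^{t+1} b` and `g = b - m`, the pair `φ, Ψ = φ' - g φ` solves a first order
system whose coefficients are small perturbations of those of the Airy equation, because almost
surely `b(t+s) - b(t) = o(√t)` uniformly in `s ∈ [0,1]`.  A cone argument shows that the bounded
solution satisfies `Ψ/φ = -(1 + O(δ)) √(t + λ)` as soon as `|t + λ|` is large.  Comparing the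
solutions for `λ`, `0`, `1` and `i` and integrating from infinity gives
`log |F_λ(t) / F_0(t)| = -Re λ √t + O(|λ|²/√t) + O(|λ|) (C + δ √t)` for `t ≥ 100 |λ|`.  Starting from
`t = 10⁴ |λ|` one goes back to a fixed time: crudely for the upper bound `exp (C |λ|^{3/2})`, and with
the cone estimate along `λ = i r` for the lower bound `exp (c r^{3/2})`.
-/

open MeasureTheory ProbabilityTheory Filter Topology

namespace Pool.Agent.Results.MP_c9aaee_pr.AiryOrder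

/-- `B` is a two-sided Brownian motion on `ℝ` with `B 0 = 0` and `E[B(t)²] = (4/β) |t|`: a centred
Gaussian process with covariance `(4/β) (|s| + |t| - |t - s|) / 2` and a.s. continuous paths. -/
structure IsTwoSidedBM {Ω : Type*} [MeasurableSpace Ω] (β : ℝ) (B : ℝ → Ω → ℝ) (P : Measure Ω) :
    Prop where
  gaussian : IsGaussianProcess B P
  mean : ∀ t, ∫ ω, B t ω ∂P = 0
  cov : ∀ s t, cov[B s, B t; P] = 4 / β * ((|s| + |t| - |t - s|) / 2)
  zero : ∀ᵐ ω ∂P, B 0 ω = 0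
  cont : ∀ᵐ ω ∂P, Continuous (fun t => B t ω)

/-- The kernel `U_l(t,u) = (t² - u²)/2 + b(t) - b(u) + l (t - u)`. -/
noncomputable def kerU (b : ℝ → ℝ) (l : ℂ) (t u : ℝ) : ℂ :=
  (((t ^ 2 - u ^ 2) / 2 + b t - b u : ℝ) : ℂ) + l * ((t - u : ℝ) : ℂ)

/-- `φ` is (the first component of) a solution of the stochastic Airy equation driven by the path
`b` with spectral parameter `l`. -/
def IsSol (b : ℝ → ℝ) (l : ℂ) (φ : ℝ → ℂ) : Prop :=
  ∃ Φ : ℝ → ℂ, (∀ x y : ℝ, IntervalIntegrable Φ volume x y) ∧ ∃ (T : ℝ) (c₁ c₂ : ℂ), ∀ t : ℝ,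
    Φ t = c₂ + (∫ u in T..t, kerU b l t u * Φ u) + c₁ * kerU b l t T ∧
    φ t = c₁ + ∫ u in T..t, Φ u

/-- `𝔛(t) = ∫₀ᵗ exp(-(4/3)(t^{3/2} - u^{3/2})) db(u)`, integrated by parts (`b 0 = 0`). -/
noncomputable def stX (b : ℝ → ℝ) (t : ℝ) : ℝ :=
  b t - ∫ u in (0:ℝ)..t, b u * (2 * Real.sqrt u *
    Real.exp (-(4 / 3) * (t ^ (3 / 2 : ℝ) - u ^ (3 / 2 : ℝ))))

/-- The asymptotic profile
`(4π)^{-1/2} t^{-(1/4)(1+2/β)} exp(-(2/3)(t+l)^{3/2} - ∫₀ᵗ 𝔛 + 2c/β)`. -/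
noncomputable def profile (β c : ℝ) (b : ℝ → ℝ) (l : ℂ) (t : ℝ) : ℂ :=
  ((1 / Real.sqrt (4 * Real.pi) * t ^ (-(1 / 4) * (1 + 2 / β)) : ℝ) : ℂ) *
    Complex.exp (-(2 / 3) * ((t : ℂ) + l) ^ (3 / 2 : ℂ) - ((∫ u in (0:ℝ)..t, stX b u : ℝ) : ℂ) +
      ((2 * c / β : ℝ) : ℂ))

/-- `f` is the stochastic Airy function with spectral parameter `l` for the path `b`: a solution,
bounded as `t → +∞`, asymptotic to the profile. -/
def IsSAi (β c : ℝ) (b : ℝ → ℝ) (l : ℂ) (f : ℝ → ℂ) : Prop :=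
  IsSol b l f ∧ (∃ M : ℝ, ∀ t : ℝ, 0 ≤ t → ‖f t‖ ≤ M) ∧
    Tendsto (fun t => f t / profile β c b l t) atTop (𝓝 1)

/-- The maximum of `|f|` on the circle of radius `r`. -/
noncomputable def maxMod (f : ℂ → ℂ) (r : ℝ) : ℝ := ⨆ z : Metric.sphere (0 : ℂ) r, ‖f z‖

/-- The order of `f`. -/
noncomputable def entOrder (f : ℂ → ℂ) : EReal :=
  limsup (fun r : ℝ => ((Real.log (Real.log (maxMod f r)) / Real.log r : ℝ) : EReal)) atTop

/-- Almost surely, for every `t` at once, `l ↦ SAi_l(t)` has order exactly `3/2`. Either reading of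
`almost surely` in the definition of the family is allowed: simultaneously in `l`, or for each `l`
together with analyticity in `l`. -/
theorem result {Ω : Type*} [MeasurableSpace Ω] (P : Measure Ω) [IsProbabilityMeasure P]
    (β : ℝ) (hβ : 0 < β) (B : ℝ → Ω → ℝ) (hB : IsTwoSidedBM β B P)
    (c : ℝ) (F : Ω → ℂ → ℝ → ℂ)
    (hF : (∀ᵐ ω ∂P, ∀ l : ℂ, IsSAi β c (fun t => B t ω) l (F ω l)) ∨
      ((∀ l : ℂ, ∀ᵐ ω ∂P, IsSAi β c (fun t => B t ω) l (F ω l)) ∧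
        ∀ᵐ ω ∂P, ∀ t : ℝ, Differentiable ℂ (fun l => F ω l t))) :
    ∀ᵐ ω ∂P, ∀ t : ℝ, entOrder (fun l => F ω l t) = ((3 / 2 : ℝ) : EReal) := by
  have hB' : Helper96.Airy.IsBM β B P := ⟨hB.gaussian, hB.mean, hB.cov, hB.zero, hB.cont⟩
  have hosc := hB'.smallOsc hβ
  rcases hF with hF | ⟨hF, hE⟩
  · filter_upwards [hosc, hB.cont, hF] with ω h1 h2 h3 t
    exact Helper96.Airy.order_of_path' h2 h1 h3 t
  · have h4 : ∀ᵐ ω ∂P, ∀ p : ℚ × ℚ, IsSAi β c (fun t => B t ω) ((p.1 : ℂ) + (p.2 : ℂ) * Complex.I)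
        (F ω ((p.1 : ℂ) + (p.2 : ℂ) * Complex.I)) := by
      rw [ae_all_iff]
      intro p
      exact hF _
    filter_upwards [hosc, hB.cont, h4, hE] with ω h1 h2 h3 h5 t
    refine Helper96.Airy.order_of_path (F := F ω) (β := β) (c := c) h2 h1 ?_ (h5 t).continuous
    rintro _ ⟨p, rfl⟩
    exact h3 p

end Pool.Agent.Results.MP_c9aaee_pr.AiryOrder
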